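import Pool.Agent.Work.MP_b0497c_an.Forced.W.Lev

set_option autoImplicit false

/-!
# The interface between the ODE half, the WKB module and the assembly

`Casc` is the output of the ODE half: an infinite cascade of nested linear flows, packaged as a
`W.Lev ℕ` (input of the WKB module) plus the relations between consecutive levels.
-/

open scoped ContDiff Matrix
open Set Filter Topology

namespace Pool.Agent.Work.MP_b0497c_an.Forced

/-- The axial vector of `A - Aᵀ`: `(A - Aᵀ) y = om A × y` (vorticity of the flow `A y`). -/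
def om (A : Matrix (Fin 3) (Fin 3) ℝ) : W.V3 := ![A 2 1 - A 1 2, A 0 2 - A 2 0, A 1 0 - A 0 1]

/-- Output of the ODE half. -/
structure Casc extends W.Lev ℕ where
  /-- the blow-up time -/
  Ts : ℝ
  s_pos : ∀ k, 1 / 2 ≤ s k
  s_next : ∀ k, s k + del k ≤ s (k + 1)
  s_lt : ∀ k, s k < Ts
  s_lim : Tendsto s atTop (𝓝 Ts)
  Ts_le : ∀ k, Ts ≤ e k
  e_le : ∀ k, e k + del k ≤ 3
  R_zero : R 0 ≤ 1 / 4
  R_pos : ∀ k, 0 < R k
  R_next : ∀ k, R (k + 1) ≤ R k
  M_next : ∀ k t, M (k + 1) t = M k t + Matrix.vecMulVec (w k t) (K k t)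
  /-- on the ball number `k + 1` packet `k` is an exact plane wave -/
  inner : ∀ k, ∀ t ∈ Ico (s k) Ts, ∀ x : W.V3, ‖x‖ ≤ R (k + 1) →
    ‖Fi k t *ᵥ x‖ < rho k / 2 ∧ Nf k * |K k t ⬝ᵥ x| ≤ 1 / 12
  /-- for every order `m` there is a number `J` of correctors which makes the errors small -/
  err : ∀ m : ℕ, ∃ J : ℕ, ∀ n : ℕ, ∀ᶠ k in atTop,
    Lam k ^ n * ((1 + a k) ^ 2 * ((Nf k * rho k) ^ 2)⁻¹
      + (Nf k * rho k) ^ m * (b k + ((1 + a k) / (Nf k * rho k)) ^ J)) ≤ (1 / 2) ^ k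
  /-- the vorticity at the centre tends to infinity -/
  vort : ∀ k : ℕ, ∀ t ∈ Icc (s k) (s (k + 1)), ∀ σ ∈ Icc (0 : ℝ) 1,
    ∃ j, (k : ℝ) ≤ |om (M k t + σ • Matrix.vecMulVec (w k t) (K k t)) j|

end Pool.Agent.Work.MP_b0497c_an.Forced
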