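import Pool.Agent.Work.MP_b0497c_an.Forced.Asm.All
import Pool.Agent.Work.MP_b0497c_an.Bd.B15

set_option autoImplicit false

/-!
# Blow-up for the Euler equations with an arbitrarily small smooth force
-/

namespace Pool.Agent.Work.MP_b0497c_an.Forced

/-- The main theorem. -/
theorem forced_main (m : ℕ) (ε : ℝ) (hε : 0 < ε) : MainConclusion m ε :=
  asm_main W.prfWKB Ode.casc_exists m ε hε

end Pool.Agent.Work.MP_b0497c_an.Forced
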